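import Pool.Agent.H66.L.S8.R773.TE.Circ
import Pool.Agent.H66.L.T9f66d723.W5h32.PT.Om

/-!
# Dynamics of homeomorphisms of the circle

If there is a periodic point, every orbit converges to a periodic orbit; if there is none, all
`ω`-limit sets are contained in one minimal set.
-/

set_option autoImplicit false
set_option linter.unusedSectionVars false

open Set Filter Topology

universe v

namespace Pool.Agent.W5h32.TX

open Pool.Agent.TH80.OMS Pool.Agent.R773.TE
open Pool.Agent.W5h32.PT (mem_omega_iff)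
open Pool.Agent.H728R2.FA (omegaLim)

/-- All `ω`-limit sets of `g` are contained in finitely many closed invariant transitive sets. -/
def Tame {X : Type*} [TopologicalSpace X] (g : X → X) : Prop :=
  ∃ (m : ℕ) (M : Fin m → Set X), (∀ i, IsClosed (M i)) ∧ (∀ i, g '' M i = M i) ∧
    (∀ i, ∃ x ∈ M i, M i ⊆ closure (range fun n : ℕ => g^[n] x)) ∧
    ∀ p, ∃ i, omegaLim g p ⊆ M i

variable {B : Type v} [TopologicalSpace B]

theorem real_conv {a c : ℝ} {G : ℝ → ℝ} (hm : MapsTo G (Ioo a c) (Ioo a c))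
    (hc : ContinuousOn G (Ioo a c)) (hi : InjOn G (Ioo a c)) {t : ℝ} (ht : t ∈ Ioo a c) :
    (∀ j, G^[2 * j] t ∈ Ioo a c) ∧ ∃ L, Tendsto (fun j : ℕ => G^[2 * j] t) atTop (𝓝 L) := by
  have hGG : ∀ s ∈ Ioo a c, ∀ s' ∈ Ioo a c, s ≤ s' → G (G s) ≤ G (G s') := by
    intro s hs s' hs' hss
    rcases hss.eq_or_lt with h | h
    · rw [h]
    rcases mono_or_anti hc hi with h1 | h1
    · exact (h1 (hm hs) (hm hs') (h1 hs hs' h)).le
    · exact (h1 (hm hs') (hm hs) (h1 hs hs' h)).le
  have hs : ∀ j, G^[2 * (j + 1)] t = G (G (G^[2 * j] t)) := by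
    intro j
    rw [show 2 * (j + 1) = 2 * j + 1 + 1 by ring, Function.iterate_succ_apply',
      Function.iterate_succ_apply']
  have hsI : ∀ j, G^[2 * j] t ∈ Ioo a c := by
    intro j
    induction j with
    | zero => exact ht
    | succ j ih =>
      rw [hs]
      exact hm (hm ih)
  refine ⟨hsI, ?_⟩
  rcases le_total t (G (G t)) with h | h
  · have hmono : Monotone fun j : ℕ => G^[2 * j] t := by
      apply monotone_nat_of_le_succ
      intro j
      induction j with
      | zero => exact h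
      | succ j ih =>
        show G^[2 * (j + 1)] t ≤ G^[2 * (j + 1 + 1)] t
        rw [hs j, hs (j + 1)]
        exact hGG _ (hsI j) _ (hsI (j + 1)) ih
    exact ⟨_, tendsto_atTop_ciSup hmono ⟨c, by
      rintro _ ⟨j, rfl⟩
      exact (hsI j).2.le⟩⟩
  · have hanti : Antitone fun j : ℕ => G^[2 * j] t := by
      apply antitone_nat_of_succ_le
      intro j
      induction j with
      | zero => exact h
      | succ j ih =>
        show G^[2 * (j + 1 + 1)] t ≤ G^[2 * (j + 1)] t
        rw [hs j, hs (j + 1)]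
        exact hGG _ (hsI (j + 1)) _ (hsI j) ih
    exact ⟨_, tendsto_atTop_ciInf hanti ⟨a, by
      rintro _ ⟨j, rfl⟩
      exact (hsI j).1.le⟩⟩

theorem orbit_conv (σ : B ≃ₜ AddCircle (1 : ℝ)) (f : B ≃ₜ B) {m : ℕ} {p : B} (hp : f^[m] p = p)
    (x : B) : ∃ z, Tendsto (fun j : ℕ => f^[m * 2 * j] x) atTop (𝓝 z) := by
  have : Fact ((0 : ℝ) < 1) := ⟨one_pos⟩
  obtain ⟨a, ha⟩ := QuotientAddGroup.mk_surjective (σ p)
  set e := AddCircle.openPartialHomeomorphCoe (1 : ℝ) a with he
  have hsrc : e.source = Ioo a (a + 1) := rfl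
  have htgt : e.target = {(a : AddCircle (1 : ℝ))}ᶜ := rfl
  have ha' : σ p = (a : AddCircle (1 : ℝ)) := ha.symm
  have hgne : ∀ x, x ≠ p → f^[m] x ≠ p := by
    intro x hx hgx
    apply hx
    have h1 : f^[m] x = f^[m] p := by rw [hgx, hp]
    exact (f.injective.iterate m) h1
  have hmem : ∀ x : B, x ≠ p → σ x ∈ e.target := by
    intro x hx
    rw [htgt]
    intro h1
    apply hx
    apply σ.injective
    rw [ha']
    exact h1
  have hmem' : ∀ t ∈ Ioo a (a + 1), σ.symm (e t) ≠ p := by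
    intro t ht h1
    have h2 : e t ∈ e.target := e.map_source (by rw [hsrc]; exact ht)
    rw [htgt] at h2
    apply h2
    have h3 : e t = σ p := by rw [← h1, σ.apply_symm_apply]
    rw [h3, ha']
    rfl
  obtain ⟨G, hG⟩ : ∃ G : ℝ → ℝ, G = fun t => e.symm (σ (f^[m] (σ.symm (e t)))) := ⟨_, rfl⟩
  have hGm : MapsTo G (Ioo a (a + 1)) (Ioo a (a + 1)) := by
    intro t ht
    have h1 := e.map_target (hmem _ (hgne _ (hmem' t ht)))
    rw [hsrc] at h1
    rw [hG]
    exact h1
  have heG : ∀ t ∈ Ioo a (a + 1), σ.symm (e (G t)) = f^[m] (σ.symm (e t)) := by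
    intro t ht
    rw [hG]
    show σ.symm (e (e.symm (σ (f^[m] (σ.symm (e t)))))) = _
    rw [e.right_inv (hmem _ (hgne _ (hmem' t ht))), σ.symm_apply_apply]
  have hGc : ContinuousOn G (Ioo a (a + 1)) := by
    have h1 : ContinuousOn e (Ioo a (a + 1)) := e.continuousOn
    have h2 : ContinuousOn (fun t => σ (f^[m] (σ.symm (e t)))) (Ioo a (a + 1)) :=
      (σ.continuous.comp ((f.continuous.iterate m).comp σ.symm.continuous)).comp_continuousOn h1
    rw [hG]
    refine e.continuousOn_symm.comp h2 ?_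
    intro t ht
    exact hmem _ (hgne _ (hmem' t ht))
  have hGi : InjOn G (Ioo a (a + 1)) := by
    intro t ht t' ht' h1
    have h2 : σ.symm (e (G t)) = σ.symm (e (G t')) := by rw [h1]
    rw [heG t ht, heG t' ht'] at h2
    have h3 := σ.symm.injective ((f.injective.iterate m) h2)
    exact e.injOn (by rw [hsrc]; exact ht) (by rw [hsrc]; exact ht') h3
  clear_value e
  by_cases hxp : x = p
  · refine ⟨p, ?_⟩
    have h1 : ∀ j : ℕ, f^[m * 2 * j] x = p := by
      intro j
      rw [hxp]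
      have h5 : Function.IsPeriodicPt f m p := hp
      exact (h5.mul_const 2).mul_const j
    simp only [h1]
    exact tendsto_const_nhds
  have hxt := hmem x hxp
  obtain ⟨t, ht⟩ : ∃ t, t = e.symm (σ x) := ⟨_, rfl⟩
  have htI : t ∈ Ioo a (a + 1) := by
    have := e.map_target hxt
    rw [hsrc] at this
    rw [ht]
    exact this
  have hxe : σ.symm (e t) = x := by
    rw [ht, e.right_inv hxt, σ.symm_apply_apply]
  obtain ⟨hsI, L, hL⟩ := real_conv hGm hGc hGi htI
  have hsx : ∀ j, f^[m * 2 * j] x = σ.symm (e (G^[2 * j] t)) := by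
    intro j
    induction j with
    | zero => exact hxe.symm
    | succ j ih =>
      have h1 := hsI j
      rw [show 2 * (j + 1) = 2 * j + 1 + 1 by ring, Function.iterate_succ_apply',
        Function.iterate_succ_apply', heG _ (hGm h1), heG _ h1, ← ih, ← Function.iterate_add_apply,
        ← Function.iterate_add_apply]
      congr 1
      ring_nf
  refine ⟨σ.symm (L : AddCircle (1 : ℝ)), ?_⟩
  have h1 : Continuous (fun u : ℝ => σ.symm (u : AddCircle (1 : ℝ))) :=
    σ.symm.continuous.comp (AddCircle.continuous_mk' 1)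
  have h2 := (h1.tendsto L).comp hL
  refine h2.congr fun j => ?_
  rw [hsx j, he]
  rfl

theorem lim_fixed [T2Space B] (f : B ≃ₜ B) {K : ℕ} {x z : B}
    (h : Tendsto (fun j : ℕ => f^[K * j] x) atTop (𝓝 z)) : f^[K] z = z := by
  have h1 : Tendsto (fun j : ℕ => f^[K * (j + 1)] x) atTop (𝓝 z) :=
    h.comp (tendsto_add_atTop_nat 1)
  have h2 : Tendsto (fun j : ℕ => f^[K] (f^[K * j] x)) atTop (𝓝 (f^[K] z)) :=
    ((f.continuous.iterate K).tendsto z).comp h
  refine tendsto_nhds_unique (h2.congr fun j => ?_) h1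
  rw [← Function.iterate_add_apply, Nat.mul_add, Nat.mul_one, Nat.add_comm]

/-- If `f^[K * j] x` converges to `z`, then the `ω`-limit set of `x` is contained in the orbit of
`z`. -/
theorem omega_lim [T2Space B] (f : B ≃ₜ B) {K : ℕ} (hK : 1 ≤ K) {x z : B}
    (h : Tendsto (fun j : ℕ => f^[K * j] x) atTop (𝓝 z)) :
    omegaLim f x ⊆ range fun i : ℕ => f^[i] z := by
  intro q hq
  rw [mem_omega_iff, mapClusterPt_iff_ultrafilter] at hq
  obtain ⟨U, hU, hUq⟩ := hq
  have hfin : ∃ i ∈ Finset.range K, ∀ᶠ n in (U : Filter ℕ), n % K = i := by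
    have h1 : (⋃ i ∈ (Finset.range K : Set ℕ), {n : ℕ | n % K = i}) ∈ U := by
      refine Filter.univ_mem' fun n => ?_
      simp only [Finset.coe_range, mem_Iio, mem_iUnion, mem_setOf_eq, exists_prop,
        exists_eq_right']
      exact Nat.mod_lt _ hK
    rw [Ultrafilter.finite_biUnion_mem_iff (Finset.finite_toSet _)] at h1
    obtain ⟨i, hi, h2⟩ := h1
    exact ⟨i, hi, h2⟩
  obtain ⟨i, -, hi⟩ := hfin
  refine ⟨i, ?_⟩
  have h1 : Tendsto (fun n : ℕ => n / K) U atTop := by
    refine (Nat.tendsto_div_const_atTop (by omega)).mono_left hU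
  have h2 : Tendsto (fun n : ℕ => f^[i] (f^[K * (n / K)] x)) U (𝓝 (f^[i] z)) :=
    ((f.continuous.iterate i).tendsto z).comp (h.comp h1)
  refine tendsto_nhds_unique h2 (hUq.congr' ?_)
  filter_upwards [hi] with n hn
  rw [← Function.iterate_add_apply]
  congr 1
  rw [← hn]
  exact (Nat.mod_add_div n K).symm

/-- The periodic points of a homeomorphism of the circle with a point of period `m` are the fixed
points of `f^[2m]`. -/
theorem per_sub [T2Space B] (σ : B ≃ₜ AddCircle (1 : ℝ)) (f : B ≃ₜ B) {m : ℕ} {p : B}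
    (hp : f^[m] p = p) : Per f ⊆ {x | f^[m * 2] x = x} := by
  rintro x ⟨q, hq, hx⟩
  obtain ⟨z, hz⟩ := orbit_conv σ f hp x
  have h1 : ∀ i, Tendsto (fun j : ℕ => f^[m * 2 * (i + q * j)] x) atTop (𝓝 z) := by
    intro i
    refine hz.comp ?_
    refine tendsto_atTop_mono (f := fun j => j) (fun j => ?_) tendsto_id
    nlinarith
  have h2 : ∀ i j, f^[m * 2 * (i + q * j)] x = f^[m * 2 * i] x := by
    intro i j
    have h3 : Function.IsPeriodicPt f q x := hx
    have h4 : f^[q * (m * 2 * j)] x = x := h3.mul_const _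
    have e : m * 2 * (i + q * j) = m * 2 * i + q * (m * 2 * j) := by ring
    rw [e, Function.iterate_add_apply, h4]
  have h3 : ∀ i, f^[m * 2 * i] x = z := by
    intro i
    have h4 := h1 i
    simp only [h2] at h4
    exact tendsto_nhds_unique tendsto_const_nhds h4
  have h4 := h3 0
  have h5 := h3 1
  simp only [mul_zero, Function.iterate_zero, id, mul_one] at h4 h5
  show f^[m * 2] x = x
  rw [h5, h4]

theorem tame_of_per [T2Space B] (σ : B ≃ₜ AddCircle (1 : ℝ)) (f : B ≃ₜ B)
    (hne : (Per f).Nonempty) (hfin : (Per f).Finite) : Tame f := by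
  obtain ⟨p, m, hm, hp⟩ := hne
  have : Fintype (Per f) := hfin.fintype
  have hcard := Fintype.equivFin (Per f)
  refine ⟨Fintype.card (Per f), fun i => range fun j : ℕ => f^[j] (hcard.symm i : B), ?_, ?_, ?_, ?_⟩
  · intro i
    obtain ⟨q, hq, hx⟩ := (hcard.symm i).2
    set x := (hcard.symm i : B) with hxd
    have h1 : (range fun j : ℕ => f^[j] x) = ⋃ j ∈ Finset.range q, {f^[j] x} := by
      ext y
      simp only [mem_range, mem_iUnion, mem_singleton_iff, exists_prop, Finset.mem_range]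
      constructor
      · rintro ⟨j, rfl⟩
        refine ⟨j % q, Nat.mod_lt _ hq, ?_⟩
        have h3 : Function.IsPeriodicPt f q x := hx
        exact (h3.iterate_mod_apply j).symm
      · rintro ⟨j, -, rfl⟩
        exact ⟨j, rfl⟩
    show IsClosed (range fun j : ℕ => f^[j] x)
    rw [h1]
    exact isClosed_biUnion_finset fun j _ => isClosed_singleton
  · intro i
    obtain ⟨q, hq, hx⟩ := (hcard.symm i).2
    set x := (hcard.symm i : B) with hxd
    ext y
    constructor
    · rintro ⟨_, ⟨j, rfl⟩, rfl⟩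
      exact ⟨j + 1, Function.iterate_succ_apply' _ _ _⟩
    · rintro ⟨j, rfl⟩
      refine ⟨f^[j + (q - 1)] x, ⟨j + (q - 1), rfl⟩, ?_⟩
      show f (f^[j + (q - 1)] x) = f^[j] x
      have e : j + q = j + (q - 1) + 1 := by omega
      have h3 : f^[j + q] x = f^[j] x := by rw [Function.iterate_add_apply, hx]
      rw [← h3, e, Function.iterate_succ_apply']
  · intro i
    exact ⟨_, ⟨0, rfl⟩, subset_closure⟩
  · intro x
    obtain ⟨z, hz⟩ := orbit_conv σ f hp x
    have hzK := lim_fixed f hz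
    have hzP : z ∈ Per f := ⟨m * 2, by omega, hzK⟩
    refine ⟨hcard ⟨z, hzP⟩, ?_⟩
    show omegaLim f x ⊆ range fun j : ℕ => f^[j] (hcard.symm (hcard ⟨z, hzP⟩) : B)
    rw [hcard.symm_apply_apply]
    exact omega_lim f (by omega) hz

/-! ### No periodic points -/

/-- The frontier of an open connected subset of the circle, other than the whole circle, is
finite. -/
theorem frontier_finite (σ : B ≃ₜ AddCircle (1 : ℝ)) {J : Set B} (hJ : IsOpen J)
    (hc : IsPreconnected J) {p : B} (hp : p ∉ J) : (frontier J).Finite := by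
  have : Fact ((0 : ℝ) < 1) := ⟨one_pos⟩
  obtain ⟨a, ha⟩ := QuotientAddGroup.mk_surjective (σ p)
  obtain ⟨e, he⟩ : ∃ e, e = AddCircle.openPartialHomeomorphCoe (1 : ℝ) a := ⟨_, rfl⟩
  have hsrc : e.source = Ioo a (a + 1) := by rw [he]; rfl
  have htgt : e.target = {(a : AddCircle (1 : ℝ))}ᶜ := by rw [he]; rfl
  have hcoe : ∀ t : ℝ, e t = (t : AddCircle (1 : ℝ)) := by
    intro t
    rw [he]
    rfl
  have ha' : σ p = (a : AddCircle (1 : ℝ)) := ha.symm
  have hJt : σ '' J ⊆ e.target := by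
    rintro _ ⟨x, hx, rfl⟩
    rw [htgt]
    intro h1
    apply hp
    have h2 : σ x = σ p := by rw [ha']; exact h1
    rwa [← σ.injective h2]
  set J' : Set ℝ := e.symm '' (σ '' J) with hJ'
  have h1 : IsPreconnected J' :=
    (hc.image σ σ.continuous.continuousOn).image _ (e.continuousOn_symm.mono hJt)
  have h2 : J' ⊆ Ioo a (a + 1) := by
    rintro _ ⟨y, hy, rfl⟩
    have := e.map_target (hJt hy)
    rwa [hsrc] at this
  rcases J.eq_empty_or_nonempty with h0 | hne
  · rw [h0, frontier_empty]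
    exact finite_empty
  have hne' : J'.Nonempty := (hne.image _).image _
  have hbb : BddBelow J' := ⟨a, fun t ht => (h2 ht).1.le⟩
  have hba : BddAbove J' := ⟨a + 1, fun t ht => (h2 ht).2.le⟩
  set s := sInf J' with hs
  set t := sSup J' with ht
  have h3 : Ioo s t ⊆ J' := by
    intro u hu
    obtain ⟨v, hv, hvu⟩ := exists_lt_of_csInf_lt hne' hu.1
    obtain ⟨w, hw, huw⟩ := exists_lt_of_lt_csSup hne' hu.2
    exact h1.ordConnected.out hv hw ⟨hvu.le, huw.le⟩
  have h4 : J' ⊆ Icc s t := fun u hu => ⟨csInf_le hbb hu, le_csSup hba hu⟩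
  have h5 : ∀ u ∈ J', σ.symm (u : AddCircle (1 : ℝ)) ∈ J := by
    rintro _ ⟨_, ⟨x, hx, rfl⟩, rfl⟩
    rw [← hcoe, e.right_inv (hJt ⟨x, hx, rfl⟩), σ.symm_apply_apply]
    exact hx
  have hcont : Continuous (fun u : ℝ => σ.symm (u : AddCircle (1 : ℝ))) :=
    σ.symm.continuous.comp (AddCircle.continuous_mk' 1)
  have hT2 : T2Space B := σ.symm.t2Space
  have h6 : closure J ⊆ (fun u : ℝ => σ.symm (u : AddCircle (1 : ℝ))) '' Icc s t := by
    apply closure_minimal _ ((isCompact_Icc.image hcont).isClosed)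
    intro x hx
    refine ⟨e.symm (σ x), h4 ⟨_, ⟨x, hx, rfl⟩, rfl⟩, ?_⟩
    show σ.symm ((e.symm (σ x) : ℝ) : AddCircle (1 : ℝ)) = x
    rw [← hcoe, e.right_inv (hJt ⟨x, hx, rfl⟩), σ.symm_apply_apply]
  refine ((finite_singleton s).insert t |>.image
    (fun u : ℝ => σ.symm (u : AddCircle (1 : ℝ)))).subset ?_
  intro x hx
  rw [hJ.frontier_eq] at hx
  obtain ⟨u, hu, hux⟩ := h6 hx.1
  refine ⟨u, ?_, hux⟩
  by_contra hcon
  simp only [mem_insert_iff, mem_singleton_iff, not_or] at hcon
  apply hx.2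
  rw [← hux]
  exact h5 u (h3 ⟨lt_of_le_of_ne hu.1 (Ne.symm hcon.2), lt_of_le_of_ne hu.2 hcon.1⟩)

/-- A homeomorphism of the circle which maps a component of the complement of a nonempty closed set
to itself has a periodic point. -/
theorem per_of_component (σ : B ≃ₜ AddCircle (1 : ℝ)) (h : B ≃ₜ B) {J : Set B} (hJ : IsOpen J)
    (hc : IsPreconnected J) (hne : J.Nonempty) {p : B} (hp : p ∉ J) (hh : h '' J = J) :
    (Per h).Nonempty := by
  have hfin := frontier_finite σ hJ hc hp
  have hB : ConnectedSpace B := σ.symm.surjective.connectedSpace σ.symm.continuous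
  have hfr : (frontier J).Nonempty := by
    rw [nonempty_frontier_iff]
    refine ⟨hne, ?_⟩
    intro h1
    rw [h1] at hp
    exact hp (mem_univ p)
  have hmaps : MapsTo h (frontier J) (frontier J) := by
    intro x hx
    have h1 : h '' frontier J = frontier J := by
      rw [h.image_frontier, hh]
    rw [← h1]
    exact mem_image_of_mem _ hx
  obtain ⟨x, hx⟩ := hfr
  have h1 : ∀ n, h^[n] x ∈ frontier J := fun n => hmaps.iterate n hx
  have h2 : ¬ Function.Injective fun n : ℕ => (⟨h^[n] x, h1 n⟩ : frontier J) := by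
    have : Finite (frontier J) := hfin
    exact not_injective_infinite_finite _
  simp only [Function.Injective, not_forall] at h2
  obtain ⟨i, j, hij, hne⟩ := h2
  have h3 : h^[i] x = h^[j] x := congrArg Subtype.val hij
  rcases Nat.lt_or_ge i j with hlt | hge
  · refine ⟨x, j - i, by omega, ?_⟩
    apply h.injective.iterate i
    rw [← Function.iterate_add_apply, show i + (j - i) = j by omega, h3]
  · refine ⟨x, i - j, by omega, ?_⟩
    apply h.injective.iterate j
    rw [← Function.iterate_add_apply, show j + (i - j) = i by omega, h3]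

/-- existence of a minimal set -/
theorem exists_minimal [T2Space B] [CompactSpace B] [Nonempty B] (f : B ≃ₜ B) :
    ∃ M : Set B, IsClosed M ∧ M.Nonempty ∧ f '' M = M ∧
      ∀ x ∈ M, M ⊆ closure (range fun n : ℕ => f^[n] x) := by
  have hz := zorn_superset_nonempty {A : Set B | IsClosed A ∧ A.Nonempty ∧ MapsTo f A A} ?_ univ
    ⟨isClosed_univ, univ_nonempty, mapsTo_univ _ _⟩
  · obtain ⟨M, -, hM⟩ := hz
    obtain ⟨⟨hcl, hne, hmt⟩, hmin⟩ := hM
    have h1 : f '' M = M := by
      apply subset_antisymm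
      · rintro _ ⟨x, hx, rfl⟩
        exact hmt hx
      · apply hmin ⟨f.isClosedMap _ hcl, hne.image _, ?_⟩
        · rintro _ ⟨x, hx, rfl⟩
          exact hmt hx
        · rintro _ ⟨x, hx, rfl⟩
          exact mem_image_of_mem _ (hmt hx)
    refine ⟨M, hcl, hne, h1, fun x hx => ?_⟩
    refine hmin ⟨isClosed_closure, ⟨x, subset_closure ⟨0, rfl⟩⟩, ?_⟩ ?_
    · refine MapsTo.closure ?_ f.continuous
      rintro _ ⟨n, rfl⟩
      exact ⟨n + 1, Function.iterate_succ_apply' _ _ _⟩
    · apply closure_minimal _ hcl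
      rintro _ ⟨n, rfl⟩
      exact hmt.iterate n hx
  · intro c hc hchain hne
    refine ⟨⋂₀ c, ⟨isClosed_sInter fun A hA => (hc hA).1, ?_, ?_⟩, fun A hA => sInter_subset_of_mem hA⟩
    · have : Nonempty c := hne.to_subtype
      refine IsCompact.nonempty_sInter_of_directed_nonempty_isCompact_isClosed ?_ ?_ ?_ ?_
      · intro A hA A' hA'
        rcases hchain.total hA hA' with h | h
        · exact ⟨A, hA, subset_rfl, h⟩
        · exact ⟨A', hA', h, subset_rfl⟩
      · exact fun A hA => (hc hA).2.1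
      · exact fun A hA => (hc hA).1.isCompact
      · exact fun A hA => (hc hA).1
    · intro x hx A hA
      exact (hc hA).2.2 (hx A hA)

theorem exists_iter (f : B ≃ₜ B) (m : ℕ) : ∃ h : B ≃ₜ B, (h : B → B) = f^[m] := by
  induction m with
  | zero => exact ⟨Homeomorph.refl B, rfl⟩
  | succ m ih =>
    obtain ⟨h, hh⟩ := ih
    refine ⟨f.trans h, ?_⟩
    rw [Function.iterate_succ, ← hh]
    rfl

/-- Without periodic points, all `ω`-limit sets are contained in a minimal set. -/
theorem tame_of_aper [T2Space B] [CompactSpace B] (σ : B ≃ₜ AddCircle (1 : ℝ)) (f : B ≃ₜ B)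
    (h0 : Per f = ∅) : Tame f := by
  have hBne : Nonempty B := ⟨σ.symm 0⟩
  have hloc : LocallyConnectedSpace B := by
    have h1 : IsQuotientMap (fun u : ℝ => (u : AddCircle (1 : ℝ))) := isQuotientMap_quot_mk
    have h2 : LocallyConnectedSpace (AddCircle (1 : ℝ)) := h1.isCoinducing.locallyConnectedSpace
    exact σ.locallyConnectedSpace
  obtain ⟨M, hcl, hne, hinv, hmin⟩ := exists_minimal f
  obtain ⟨p, hp⟩ := hne
  refine ⟨1, fun _ => M, fun _ => hcl, fun _ => hinv, fun _ => ⟨p, hp, hmin p hp⟩, fun x => ⟨0, ?_⟩⟩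
  intro q hq
  by_contra hqM
  -- the component of `q`
  set J := connectedComponentIn Mᶜ q with hJ
  have hJo : IsOpen J := hcl.isOpen_compl.connectedComponentIn
  have hqJ : q ∈ J := mem_connectedComponentIn hqM
  have hJM : J ⊆ Mᶜ := connectedComponentIn_subset _ _
  obtain ⟨i, -, hi⟩ := hq J (hJo.mem_nhds hqJ) 0
  obtain ⟨j, hj, hj'⟩ := hq J (hJo.mem_nhds hqJ) (i + 1)
  obtain ⟨m, hm, hmd⟩ : ∃ m : ℕ, 1 ≤ m ∧ j = m + i := ⟨j - i, by omega, by omega⟩
  have hinvm : ∀ n : ℕ, f^[n] '' M = M := by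
    intro n
    induction n with
    | zero => simp
    | succ n ih => rw [Function.iterate_succ, image_comp, hinv, ih]
  obtain ⟨h, hh⟩ : ∃ h : B ≃ₜ B, (h : B → B) = f^[m] := exists_iter f m
  have hMc : h '' Mᶜ = Mᶜ := by
    rw [image_compl_eq h.bijective, hh, hinvm]
  have hhJ : h '' J = J := by
    have h1 : h '' J = connectedComponentIn Mᶜ (h (f^[i] x)) := by
      rw [hJ, connectedComponentIn_eq hi, h.image_connectedComponentIn (hJM hi), hMc]
    rw [h1, hh, ← Function.iterate_add_apply, ← hmd, hJ]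
    exact (connectedComponentIn_eq hj').symm
  obtain ⟨y, n, hn, hy⟩ := per_of_component σ h hJo isPreconnected_connectedComponentIn ⟨q, hqJ⟩
    (fun hpJ => hJM hpJ hp) hhJ
  have h2 : y ∈ Per f := by
    refine ⟨m * n, Nat.mul_pos hm hn, ?_⟩
    rw [Function.iterate_mul, ← hh]
    exact hy
  rw [h0] at h2
  exact h2

theorem tame_circle [T2Space B] [CompactSpace B] (σ : B ≃ₜ AddCircle (1 : ℝ)) (f : B ≃ₜ B)
    (hfin : (Per f).Finite) : Tame f := by
  rcases (Per f).eq_empty_or_nonempty with h0 | hne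
  · exact tame_of_aper σ f h0
  · exact tame_of_per σ f hne hfin

end Pool.Agent.W5h32.TX
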