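import Pool.Agent.H66.L.T9f66d723.W5h32.TX.Circ
import Pool.Agent.H66.L.T9f66d723.W5h32.TX.Dil
import Pool.Agent.H66.L.T9f66d723.W5h32.PT.Sm

/-!
# Diffeomorphisms of the circle: density of the tame ones
-/

set_option autoImplicit false
set_option linter.unusedSectionVars false

open scoped Manifold ContDiff Topology
open Filter Set Metric

universe v

namespace Pool.Agent.W5h32.TX

open Pool.Agent.H718R2.G Pool.Agent.W564.SC Pool.Agent.TH290.CL Pool.Agent.TH80.CLX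
  Pool.Agent.TH80.OMS Pool.Agent.W5h32.PT

variable {B : Type v} [TopologicalSpace B] [ChartedSpace (V 1) B] [IsManifold (𝓡 1) ∞ B]
  [T2Space B] [CompactSpace B]

theorem per_dense {r : ℕ∞} (hr : 1 ≤ r) (σ : B ≃ₜ AddCircle (1 : ℝ)) (F : DiffM 1 B r)
    (U : Set (DiffM 1 B r)) (hU : IsOpen[strongTop 1 B r] U) (hFU : F ∈ U) :
    ∃ G ∈ U, (Per G).Finite := by
  by_cases hcase : ∃ G ∈ U, (Per G).Nonempty
  · obtain ⟨G, hGU, p, m, hm, hp⟩ := hcase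
    obtain ⟨G₁, hG₁, i, χ, D, hi, hg, hp₁, hD, hdet⟩ :=
      dil_point hr G (fun G' => G' ∈ U) (FO.mem hr hU p) hGU hm hp
    obtain ⟨Q, hQ, hQG, hQp⟩ := persist G₁ hg hp₁ hD hdet
    obtain ⟨G₂, ⟨h1, h2⟩, h3⟩ := ks hr (i * 2 + 1) G₁ (fun G' => G' ∈ U ∧ Q G')
      ((FO.mem hr hU p).and hQ) ⟨hG₁, hQG⟩
    obtain ⟨y, hy⟩ := hQp G₂ h2
    have h4 := finite_of_good hr G₂ (i * 2) (h3 (i * 2) ⟨by omega, by omega⟩)
    exact ⟨G₂, h1, h4.subset (per_sub σ G₂.toHomeomorph hy)⟩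
  · push Not at hcase
    exact ⟨F, hFU, by rw [hcase F hFU]; exact finite_empty⟩

/-- The tame diffeomorphisms of the circle are dense. -/
theorem near_tame_circle {r : ℕ∞} (hr : 1 ≤ r) (σ : B ≃ₜ AddCircle (1 : ℝ)) (F : DiffM 1 B r) :
    Near F fun G => Tame G := by
  intro U hU hFU
  obtain ⟨G, hG, hfin⟩ := per_dense hr σ F U hU hFU
  exact ⟨G, hG, tame_circle σ G.toHomeomorph hfin⟩

end Pool.Agent.W5h32.TX
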